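import Pool.Agent.MycT.PartA

set_option autoImplicit false

/-!
# All versions of the question beyond `n ^ 2` are equivalent

There are a finite set `B` of true sentences of arithmetic, containing Robinson arithmetic, and a
constant `C` such that for every finite axiomatization `A` containing `B` the following holds. If
`A` has proofs of `Con_{A + Con_A (2 ^ N)} (M)` of polynomial length for some polynomial bound
`M ≥ C |A| N ^ 2`, for at least one `N` in each interval from `x` to a fixed power of `x`, then for all `n` and `m` it has proofs of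
`Con_{A + Con_A (2 ^ n)} (m)` of length polynomial in `n + m`. All notions are defined in
`Pool.Agent.Myc.Defs` (and `Closed` in `Pool.Agent.Myc.Base`).

The proof. (1) By an axiom on doubling, `Con_A (2 ^ n)` has a proof of length `O (|A| N ^ 2)` from
`A + Con_A (2 ^ N)` for all `n ≤ N`; so a contradiction from `A + Con_A (2 ^ n)` of length
`x` becomes one from `A + Con_A (2 ^ N)` of length `x + O (|A| N ^ 2)`. (2) This fact, in
arithmetised form and uniform in `A`, is a true sentence and an axiom of `B`. (3) Its instances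
for dyadic numerals have proofs of polynomial length.
-/

namespace Pool.Agent.Results.MP_f85ba2_lc.AllScales

open Pool.Agent.Myc Pool.Agent.Myc.Fm Pool.Agent.MycT

theorem result : ∃ (B : List AFm) (C : ℕ), (∀ φ ∈ Q, φ ∈ B) ∧ (∀ φ ∈ B, Closed φ) ∧
    (∀ φ ∈ B, ∀ e, Sat NN φ e) ∧
    ∀ A : List AFm, (∀ φ ∈ B, φ ∈ A) → (∀ φ ∈ A, Closed φ) →
      (∃ c : ℕ, ∀ x : ℕ, ∃ N M : ℕ, x ≤ N ∧ N ≤ (x + 2) ^ c ∧
        C * ((encodeL A).length + 1) * (N + 1) ^ 2 ≤ M ∧ M ≤ (x + 2) ^ c ∧
        Proves {φ | φ ∈ A} ((x + 2) ^ c) (Con (Con A (2 ^ N) :: A) M)) →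
      ∃ c : ℕ, ∀ n m : ℕ,
        Proves {φ | φ ∈ A} ((n + m + 2) ^ c) (Con (Con A (2 ^ n) :: A) m) := by
  obtain ⟨cE, sC, htrue⟩ := exists_BaseS
  refine ⟨BaseS cE sC, sC + 1, ?_, BaseS_closed cE sC, htrue, ?_⟩
  · intro φ hφ
    simp only [BaseS, BaseA, A0, List.mem_append]
    exact Or.inl (Or.inl (Or.inl hφ))
  · intro A hA hc h
    refine partA cE sC A (fun φ hφ => hA φ (List.mem_append_left _ hφ)) hc
      (hA _ (List.mem_append_right _ (by simp))) (hA _ (List.mem_append_right _ (by simp))) h

end Pool.Agent.Results.MP_f85ba2_lc.AllScales
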