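import Pool.Agent.MycW.FinD

set_option autoImplicit false

/-!
# Short proofs of `Con_{A + Con_A (2 ^ n)} (n ^ k)` for all `k`, with few additional true axioms

All notions are defined in `Pool.Agent.Myc.Defs` (and `Closed` in `Pool.Agent.Myc.Base`).

The proof. Fix a true theory `T`. A machine with total moves searches for a proof of falsum from a
given list of axioms. The node `Nd (t, j, c)` is the sentence which says: the configuration `c` does
not show falsum and, if `j > 0`, all nodes `Nd (t, j - 1, m (c))`, for all moves `m`, are provable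
in the theory `t`. All nodes of reachable configurations of the machine with true axioms are true.
Let `T₁` be `T` together with the true sentence `Ξ`: if a node is false then `T + σ` is consistent,
where `σ` is the fixed point: if the node is true then `T + σ + Con_{T + σ} (2 ^ N)` does not prove
falsum in length `N ^ k`. Either the root of the tree for `T₀ + Con_{T₀} (2 ^ n)` has a `T₁`-proof of
length at most `s`, a polynomial in `n` and `N`, and then `T₀`, which is `T₁` with one more true
sentence, works for `n`; or there is a node which has no `T₁`-proof of length `s`, but whose children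
have such proofs; then `T` proves the node in length polynomial in `s`, and `σ` is true, because
otherwise `T₁` would prove the node in length `s`; so `T + σ` works for `N`.

The relations which have short proofs in a finite true theory are closed under composition,
recursion and true implications; this is used for the arithmetised syntax.
-/

namespace Pool.Agent.Results.MP_f85ba2_lc.NonUniform

open Pool.Agent.Myc Pool.Agent.Myc.Fm

/-- All elements of the list `T` are sentences which are true in the standard model. -/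
def TrueSentences (T : List AFm) : Prop := ∀ φ ∈ T, Closed φ ∧ ∀ e, Sat NN φ e

theorem iff_trueL (T : List AFm) : TrueSentences T ↔ MycW.TrueL T :=
  ⟨fun h => ⟨fun φ hφ => (h φ hφ).1, fun φ hφ => (h φ hφ).2⟩,
    fun h φ hφ => ⟨h.1 φ hφ, h.2 φ hφ⟩⟩

theorem result :
    (∀ k : ℕ, (encode (num k)).length ≤ 200 * (Nat.size k + 1)) ∧
    (∀ (T : List AFm) (N : ℕ) (e : ℕ → ℕ),
      Sat NN (Con T N) e ↔ ¬ Proves {φ | φ ∈ T} N bot) ∧
    ∃ A : List AFm, (∀ φ ∈ Q, φ ∈ A) ∧ TrueSentences A ∧
      ∀ T : List AFm, (∀ φ ∈ A, φ ∈ T) → TrueSentences T →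
        ∃ T₀ : List AFm, (∀ φ ∈ T, φ ∈ T₀) ∧ TrueSentences T₀ ∧
          ∀ k : ℕ, ∃ d : ℕ, ∀ k' : ℕ, ∃ c : ℕ, ∀ n N : ℕ,
            (∀ m ≤ n ^ k,
              Proves {φ | φ ∈ T₀} ((n + N + 2) ^ c) (Con (Con T₀ (2 ^ n) :: T₀) m)) ∨
            ∃ σ : AFm, TrueSentences [σ] ∧
              (encode σ).length ≤ c * (n + Nat.size N + 2) ^ d ∧
              ∀ m ≤ N ^ k', Proves {φ | φ ∈ σ :: T} ((n + N + 2) ^ c)
                (Con (Con (σ :: T) (2 ^ N) :: σ :: T) m) := by
  refine ⟨fun k => (length_encode _).le.trans (len_num k), sat_Con, ?_⟩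
  obtain ⟨A, h1, h2, h3⟩ := MycW.winwin
  refine ⟨A, h1, (iff_trueL A).2 h2, fun T hA hT => ?_⟩
  obtain ⟨S₀, hS, h6⟩ := h3 T hA ((iff_trueL T).1 hT)
  refine ⟨S₀ ++ T, fun φ hφ => List.mem_append_right _ hφ, fun φ hφ => ?_, fun k => ?_⟩
  · rcases List.mem_append.1 hφ with h | h
    · exact ⟨hS.1 φ h, hS.2 φ h⟩
    · exact hT φ h
  · obtain ⟨d, h7⟩ := h6 k
    refine ⟨d, fun k' => ?_⟩
    obtain ⟨c, h8⟩ := h7 k'
    refine ⟨c, fun n N => ?_⟩
    rcases h8 n N with h | ⟨σ, hs1, hs2, hs3, hs4⟩
    · exact Or.inl fun m hm => (proves_iff _ _ _).2 (h m hm)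
    · refine Or.inr ⟨σ, fun φ hφ => ?_, ?_, fun m hm => (proves_iff _ _ _).2 (hs4 m hm)⟩
      · rw [List.mem_singleton] at hφ
        subst hφ
        exact ⟨hs1, hs2⟩
      · rw [length_encode]
        exact hs3

end Pool.Agent.Results.MP_f85ba2_lc.NonUniform
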