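import Pool.Agent.MycT.Thr

set_option autoImplicit false

/-!
# The quadratic threshold for contradictions from `T + Con_T (2 ^ m)`

There are a finite set `B` of true sentences of arithmetic, containing Robinson arithmetic, and a
constant `c` with the following properties. (1) For all finite sets `T` of formulas containing `B`
and all `m ≥ c (|T| + 1)`: if `T + Con_T (2 ^ m)` has a contradiction of length at most `m ^ 2`
then `T` itself has one of length at most `m ^ c`. (2) For every finite set `S` of true sentences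
containing `B` there is `K` such that for every `m` there is a sentence `σ` of length at most
`K log m` such that for `T = S + σ` the theory `T + Con_T (2 ^ m)` has a contradiction of length at
most `K (m + 1) ^ 2`, but `T` has none of length at most `2 ^ m`. All notions are defined in
`Pool.Agent.Myc.Defs` (and `Closed` in `Pool.Agent.Myc.Base`).

The proof of (2). The sentence `σ` says that `S + σ` has a contradiction of length at most
`2 ^ m`; the diagonal lemma and the computation of the numerals of `2 ^ m` and of `S + σ` have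
proofs of quadratic length.
-/

namespace Pool.Agent.Results.MP_f85ba2_lc.QuadraticThreshold

open Pool.Agent.Myc Pool.Agent.Myc.Fm Pool.Agent.MycT

theorem result : ∃ (B : List AFm) (c : ℕ), (∀ φ ∈ Q, φ ∈ B) ∧ (∀ φ ∈ B, Closed φ) ∧
    (∀ φ ∈ B, ∀ e, Sat NN φ e) ∧
    (∀ T : List AFm, (∀ φ ∈ B, φ ∈ T) → ∀ m : ℕ, c * ((encodeL T).length + 1) ≤ m →
      Proves {φ | φ ∈ Con T (2 ^ m) :: T} (m ^ 2) bot → Proves {φ | φ ∈ T} (m ^ c) bot) ∧
    ∀ S : List AFm, (∀ φ ∈ B, φ ∈ S) → (∀ φ ∈ S, Closed φ) → (∀ φ ∈ S, ∀ e, Sat NN φ e) →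
      ∃ K : ℕ, ∀ m : ℕ, ∃ σ : AFm, Closed σ ∧ (encode σ).length ≤ K * (Nat.size m + 1) ∧
        ¬ Proves {φ | φ ∈ σ :: S} (2 ^ m) bot ∧
        Proves {φ | φ ∈ Con (σ :: S) (2 ^ m) :: σ :: S} (K * (m + 1) ^ 2) bot := by
  obtain ⟨cE, sC, hrep⟩ := rep_lemma
  refine ⟨BaseT cE sC, sC + cE + 1, ?_, BaseT_closed cE sC, BaseT_true hrep, ?_, ?_⟩
  · intro φ hφ
    simp only [BaseT, BaseA, A0, List.mem_append]
    exact Or.inl (Or.inl (Or.inl hφ))
  · intro T hT m hm hp
    have h1 : sC * ((encodeL T).length + 1) ≤ m :=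
      (Nat.mul_le_mul_right _ (by omega)).trans hm
    have h0 : 1 ≤ m := by
      refine le_trans ?_ hm
      exact Nat.mul_pos (by omega) (by omega)
    obtain ⟨l, h2, h3⟩ := hrep m T (m ^ 2) h1 le_rfl hp
    refine ⟨l, h2.weaken ?_, h3.trans (Nat.pow_le_pow_right h0 (by omega))⟩
    intro ψ hψ
    rcases List.mem_append.1 hψ with h | h
    · exact hT ψ (A0_mem cE sC ψ h)
    · exact h
  · intro S hB hc ht
    exact sharp cE sC S hB hc ht

end Pool.Agent.Results.MP_f85ba2_lc.QuadraticThreshold
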