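import Pool.Agent.Myc.FinC

set_option autoImplicit false

/-!
# Short proofs of the finitistic consistency of `T + Con_T (2 ^ n)`

There is a finite set `A` of true sentences of arithmetic, containing Robinson arithmetic, such
that for every finite set `T` of sentences containing `A` the sentences `Con_{T + Con_T (2 ^ n)} (m)`
with `m ≤ n ^ 2` have `T`-proofs of length polynomial in `n`. All notions are defined in
`Pool.Agent.Myc.Defs` (and `Closed` in `Pool.Agent.Myc.Base`).

The proof. (1) Key lemma: a proof of falsum of length at most `m ^ 2` from `T + Con_T (2 ^ m)` leaves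
the numeral of some `2 ^ j` with `m / 2 ≤ j < m`, which is a part of the numeral of `2 ^ m`,
untouched; replacing this numeral by the one for zero everywhere in the proof turns the new axiom
into a statement about proofs of length zero; so falsum has a proof from `T` (and a small true
theory) of length polynomial in `m`. (2) The arithmetised key lemma is a true sentence which is
uniform in `T`; it is an axiom of `A`. (3) Pudlak's theorem: `Con_T (n ^ c)` has short proofs in
`T`. Uniform families of short proofs are obtained from the completeness theorem, by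
substitution of formulas for predicate symbols.
-/

namespace Pool.Agent.Results.MP_f85ba2_lc.ShortConsistency

open Pool.Agent.Myc Pool.Agent.Myc.Fm

theorem length_Con (T : List AFm) : ∃ c, ∀ n : ℕ,
    (encode (Con T (2 ^ n))).length ≤ c * (n + 1) := by
  refine ⟨400 + ((encode (num (codeS (encodeL T)))).length + conS.length), fun n => ?_⟩
  rw [encode_Con, List.length_append, List.length_append, length_encode (num (2 ^ n))]
  have h1 := len_num (2 ^ n)
  rw [Nat.size_pow] at h1
  have h2 : (encode (num (codeS (encodeL T)))).length + conS.length ≤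
      ((encode (num (codeS (encodeL T)))).length + conS.length) * (n + 1) :=
    Nat.le_mul_of_pos_right _ (by omega)
  rw [add_mul]
  omega

theorem result :
    (∀ k : ℕ, (encode (num k)).length ≤ 200 * (Nat.size k + 1)) ∧
    (∀ (T : List AFm) (N : ℕ) (e : ℕ → ℕ),
      Sat NN (Con T N) e ↔ ¬ Proves {φ | φ ∈ T} N bot) ∧
    ∃ A : List AFm, (∀ φ ∈ Q, φ ∈ A) ∧ (∀ φ ∈ A, Closed φ) ∧ (∀ φ ∈ A, ∀ e, Sat NN φ e) ∧
      Consistent {φ | φ ∈ A} ∧
      ∀ T : List AFm, (∀ φ ∈ A, φ ∈ T) → (∀ φ ∈ T, Closed φ) →
        ∃ c : ℕ, ∀ n : ℕ, (encode (Con T (2 ^ n))).length ≤ c * (n + 1) ∧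
          ∀ m : ℕ, m ≤ n ^ 2 →
            Proves {φ | φ ∈ T} ((n + 2) ^ c) (Con (Con T (2 ^ n) :: T) m) := by
  refine ⟨fun k => (length_encode _).le.trans (len_num k), sat_Con, ?_⟩
  obtain ⟨A, h1, h2, h3, h4, h5⟩ := main
  refine ⟨A, h1, h2, h3, h4, fun T hT hc => ?_⟩
  obtain ⟨c1, hc1⟩ := h5 T hT hc
  obtain ⟨c2, hc2⟩ := length_Con T
  refine ⟨c1 + c2, fun n => ⟨(hc2 n).trans (Nat.mul_le_mul_right _ (by omega)),
    fun m hm => ?_⟩⟩
  obtain ⟨l, hl, hlen⟩ := hc1 n m hm
  exact ⟨l, hl, hlen.trans (Nat.pow_le_pow_right (by omega) (by omega))⟩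

end Pool.Agent.Results.MP_f85ba2_lc.ShortConsistency
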